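import Pool.Agent.helper59.TC.G6

/-!
# TX-G7: the quotient map: injectivity on faces, goodness, image
-/

set_option autoImplicit false
noncomputable section
namespace Pool.Agent.helper73.TC
open Ce B59

namespace G22

/-- label of a vertex -/
abbrev ty (v : ℕ) : ℕ := ent tab.TY 2 v
abbrev gx (v : ℕ) : ℕ := ent tab.GX 3 v
abbrev gy (v : ℕ) : ℕ := ent tab.GY 3 v
abbrev ft (a b : ℕ) : ℕ := ent tab.FT 7 (Nat.add (Nat.mul 32 a) b)
abbrev f3 (a b c : ℕ) : ℕ := ent tab.F3 7 (Nat.add (Nat.mul 400 a) (Nat.add (Nat.mul 20 b) c))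

theorem tab_q (v : ℕ) (hv : v < 124) :
    (∀ g < 6, qv tab (act tab g v) = qv tab v) ∧ qv tab v < 30 ∧ ty v ≤ 2 ∧
      ∀ w < 124, qv tab v = qv tab w → ty v = ty w ∧ (ty v = 2 → v = w) := by
  have h := (allN_iff 124 _).mp chkTab_ok v hv
  obtain ⟨h1, h2⟩ := band h
  obtain ⟨h21, h22⟩ := band h2
  obtain ⟨-, h32⟩ := band h22
  obtain ⟨h41, h42⟩ := band h32
  obtain ⟨h51, h52⟩ := band h41
  refine ⟨?_, blt' h51, ble' h52, ?_⟩
  · intro g hg
    have hg' := (allN_iff 6 _).mp h21 g hg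
    exact beq' (band (band hg').2).1
  · intro w hw hvw
    have h6 := (allN_iff 124 _).mp h42 w hw
    have h7 := rec_true_left h6 (by rw [hvw]; exact Nat.beq_refl _)
    obtain ⟨h8, h9⟩ := band h7
    refine ⟨beq' h8, fun h2 => ?_⟩
    exact beq' (rec_true_left h9 (by
      show Nat.beq (ty v) 2 = true
      rw [h2]; rfl))

theorem qq_val (v : Fin 124) : (qq v : ℕ) = qv tab v :=
  Nat.mod_eq_of_lt (tab_q v v.2).2.1

theorem qq_eq (v w : Fin 124) : qq v = qq w ↔ qv tab v = qv tab w := by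
  rw [Fin.ext_iff, qq_val, qq_val]

/-- the nontrivial element of the stabilizer of the representative, by class -/
def wt (q : ℕ) : ℕ := ent 0x18468441a8 2 q

theorem g_ok : (allN 124 fun v => Bool.and (Nat.blt (ent tab.GX 3 v) 6)
    (Nat.blt (ent tab.GY 3 v) 6)) = true := by decide +kernel

theorem w_ok : (allN 124 fun v => @Bool.rec (fun _ => Bool) true
    (Bool.and (Bool.and (Nat.ble 1 (wt (qv tab v))) (Nat.ble (wt (qv tab v)) 2))
      (allN 3 fun i => Nat.beq (prm (ent tab.GX 3 v) (prm (wt (qv tab v)) i))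
        (prm (ent tab.GY 3 v) i)))
    (Nat.beq (ent tab.TY 2 v) 1)) = true := by decide +kernel

theorem gx_lt (v : ℕ) (hv : v < 124) : gx v < 6 := blt' (band ((allN_iff 124 _).mp g_ok v hv)).1
theorem gy_lt (v : ℕ) (hv : v < 124) : gy v < 6 := blt' (band ((allN_iff 124 _).mp g_ok v hv)).2

theorem prm_invol : ∀ w < 3, 1 ≤ w → ∀ i < 3, prm w (prm w i) = prm 0 i := by decide +kernel

/-- the swap relates the two normalizing elements -/
theorem w_rel (x : ℕ) (hx : x < 124) (h1 : ty x = 1) (y : ℕ) (hy : y < 124) :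
    act tab (wt (qv tab x)) (act tab (gx x) y) = act tab (gy x) y ∧
      act tab (wt (qv tab x)) (act tab (gy x) y) = act tab (gx x) y := by
  have h := rec_true_left ((allN_iff 124 _).mp w_ok x hx) (by
    show Nat.beq (ty x) 1 = true
    rw [h1]; rfl)
  obtain ⟨ha, hb⟩ := band h
  obtain ⟨hc, hd⟩ := band ha
  have hw1 : 1 ≤ wt (qv tab x) := ble' hc
  have hw2 : wt (qv tab x) ≤ 2 := ble' hd
  have hi := (allN_iff 3 _).mp hb
  have e1 : ∀ y < 124, act tab (wt (qv tab x)) (act tab (gx x) y) = act tab (gy x) y := by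
    intro y hy
    exact ((tab_v y hy).2.1 (wt (qv tab x)) (by omega)).2 (gx x) (gx_lt x hx) (gy x)
      (gy_lt x hx) (fun i hi3 => beq' (hi i hi3))
  refine ⟨e1 y hy, ?_⟩
  rw [← e1 y hy]
  have hg := ((tab_v y hy).2.1 (gx x) (gx_lt x hx)).1
  have h2 := ((tab_v _ hg).2.1 (wt (qv tab x)) (by omega)).2 (wt (qv tab x)) (by omega) 0
    (by omega) (fun i hi3 => prm_invol _ (by omega) hw1 i hi3)
  rw [h2, (tab_v _ hg).2.2]

/-! ### the checks of a facet -/

theorem cell_QG (c : ℕ) (hc : c < 64) (i : ℕ) (hi : i < (cc c).n) :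
    chkQ tab (cc c) i = true ∧ chkG tab (cc c) i = true := by
  have h1 := (allN_iff _ _).mp (band (band (chkCell_all c hc)).2).2 i hi
  obtain ⟨a, b⟩ := band h1
  obtain ⟨b1, b2⟩ := band b
  obtain ⟨c1, c2⟩ := band b2
  exact band c2

theorem sum_image_le (B : Finset ℕ) (f : ℕ → ℕ) :
    ∑ x ∈ B.image f, 2 ^ x ≤ ∑ b ∈ B, 2 ^ f b := by
  induction B using Finset.induction_on with
  | empty => simp
  | insert a s ha ih =>
    rw [Finset.image_insert, Finset.sum_insert ha]
    by_cases h : f a ∈ s.image f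
    · rw [Finset.insert_eq_of_mem h]
      exact ih.trans (Nat.le_add_left _ _)
    · rw [Finset.sum_insert h]
      exact Nat.add_le_add_left ih _

theorem por_testBit (f : ℕ → ℕ) (v : ℕ) : (por f).testBit v = true ↔ ∃ t < 7, f t = v := by
  have e : por f = (((2 ^ f 0 ||| 2 ^ f 1) ||| (2 ^ f 2 ||| 2 ^ f 3)) |||
    ((2 ^ f 4 ||| 2 ^ f 5) ||| 2 ^ f 6)) := rfl
  rw [e]
  simp only [Nat.testBit_or, Nat.testBit_two_pow, Bool.or_eq_true, decide_eq_true_eq]
  constructor
  · rintro (((h | h) | (h | h)) | ((h | h) | h))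
    · exact ⟨0, by norm_num, h⟩
    · exact ⟨1, by norm_num, h⟩
    · exact ⟨2, by norm_num, h⟩
    · exact ⟨3, by norm_num, h⟩
    · exact ⟨4, by norm_num, h⟩
    · exact ⟨5, by norm_num, h⟩
    · exact ⟨6, by norm_num, h⟩
  · rintro ⟨t, ht, h⟩
    interval_cases t <;> simp [h]

theorem psum_por_inj (f : ℕ → ℕ) (h : psum f = por f) : ∀ s < 7, ∀ t < 7, f s = f t → s = t := by
  intro s hs t ht hst
  by_contra hne
  have hpor : por f = ∑ x ∈ (Finset.range 7).image f, 2 ^ x := by
    apply Nat.eq_of_testBit_eq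
    intro v
    rw [testBit_sum_two_pow]
    rw [Bool.eq_iff_iff, por_testBit]
    simp
  have himg : (Finset.range 7).image f = ((Finset.range 7).erase s).image f := by
    apply Finset.Subset.antisymm
    · intro v hv
      obtain ⟨a, ha, rfl⟩ := Finset.mem_image.mp hv
      by_cases has : a = s
      · rw [has, hst]
        exact Finset.mem_image.mpr ⟨t, Finset.mem_erase.mpr ⟨fun h => hne h.symm,
          Finset.mem_range.mpr ht⟩, rfl⟩
      · exact Finset.mem_image.mpr ⟨a, Finset.mem_erase.mpr ⟨has, ha⟩, rfl⟩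
    · exact Finset.image_subset_image (Finset.erase_subset _ _)
  have h1 := sum_image_le ((Finset.range 7).erase s) f
  rw [← himg, ← hpor, ← h, psum_eq] at h1
  have h2 := Finset.add_sum_erase (Finset.range 7) (fun t => 2 ^ f t) (Finset.mem_range.mpr hs)
  have h3 : 0 < 2 ^ f s := by positivity
  omega

/-- facts on the quotient of a facet -/
theorem facet_Q (c : ℕ) (hc : c < 64) (i : ℕ) (hi : i < (cc c).n) :
    (∀ s < 7, ∀ t < 7, qv tab (vtx (cc c) i s) = qv tab (vtx (cc c) i t) → s = t) ∧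
      ent (cc c).QI 11 i < 1804 ∧
      ∀ b, (ent tab.LF 30 (ent (cc c).QI 11 i)).testBit b = true ↔
        ∃ t < 7, qv tab (vtx (cc c) i t) = b := by
  obtain ⟨a, b⟩ := band (cell_QG c hc i hi).1
  obtain ⟨b1, b2⟩ := band b
  refine ⟨psum_por_inj _ (beq' a), blt' b1, ?_⟩
  intro v
  rw [← beq' b2, por_testBit]

/-- goodness facts of a facet, in terms of its seven vertices -/
theorem facet_G (c : ℕ) (hc : c < 64) (i : ℕ) (hi : i < (cc c).n) (t : ℕ) (ht : t < 7) :
    (ty (vtx (cc c) i t) = 0 → ∀ s < 7, act tab (gx (vtx (cc c) i t)) (vtx (cc c) i s) =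
      ft (qv tab (vtx (cc c) i t)) (qv tab (vtx (cc c) i s))) ∧
    (ty (vtx (cc c) i t) = 1 → ∀ s < 7, 1 ≤ ty (vtx (cc c) i s) →
      (act tab (gx (vtx (cc c) i t)) (vtx (cc c) i s) =
          act tab (gy (vtx (cc c) i t)) (vtx (cc c) i s) ∧
        act tab (gx (vtx (cc c) i t)) (vtx (cc c) i s) =
          ft (qv tab (vtx (cc c) i t)) (qv tab (vtx (cc c) i s))) ∨
      (act tab (gx (vtx (cc c) i t)) (vtx (cc c) i s) ≠
          act tab (gy (vtx (cc c) i t)) (vtx (cc c) i s) ∧
        ∃ g, (g = gx (vtx (cc c) i t) ∨ g = gy (vtx (cc c) i t)) ∧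
          act tab g (vtx (cc c) i s) =
            ft (qv tab (vtx (cc c) i t)) (qv tab (vtx (cc c) i s)) ∧
          ∀ r < 7, 1 ≤ ty (vtx (cc c) i r) → act tab g (vtx (cc c) i r) =
            f3 (qv tab (vtx (cc c) i t)) (qv tab (vtx (cc c) i s))
              (qv tab (vtx (cc c) i r)))) := by
  have h := (all7_iff _).mp (cell_QG c hc i hi).2 t ht
  constructor
  · intro h0 s hs
    rcases rec_cases h with ⟨-, h1⟩ | ⟨h1, -⟩
    · exact beq' ((all7_iff _).mp h1 s hs)
    · exfalso
      have : Nat.beq (ty (vtx (cc c) i t)) 0 = false := h1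
      rw [h0] at this
      exact absurd this (by decide)
  · intro h0 s hs hs1
    rcases rec_cases h with ⟨h1, -⟩ | ⟨-, h1⟩
    · exfalso
      have : Nat.beq (ty (vtx (cc c) i t)) 0 = true := h1
      rw [h0] at this
      exact absurd this (by decide)
    · have h2 := rec_true_left h1 (by
        show Nat.beq (ty (vtx (cc c) i t)) 1 = true
        rw [h0]; rfl)
      have h3 := (all7_iff _).mp h2 s hs
      have h4 := rec_true_left h3 (Nat.ble_eq.mpr hs1)
      rcases rec_cases h4 with ⟨h5, h6⟩ | ⟨h5, h6⟩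
      · exact Or.inl ⟨beq' h5, beq' h6⟩
      · right
        refine ⟨fun heq => ?_, ?_⟩
        · have : Nat.beq (act tab (gx (vtx (cc c) i t)) (vtx (cc c) i s))
            (act tab (gy (vtx (cc c) i t)) (vtx (cc c) i s)) = false := h5
          rw [heq, Nat.beq_refl] at this
          exact absurd this (by decide)
        · have n1 : ∀ g, chkN1 tab (cc c) i t s g = true →
              act tab g (vtx (cc c) i s) =
                ft (qv tab (vtx (cc c) i t)) (qv tab (vtx (cc c) i s)) ∧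
              ∀ r < 7, 1 ≤ ty (vtx (cc c) i r) → act tab g (vtx (cc c) i r) =
                f3 (qv tab (vtx (cc c) i t)) (qv tab (vtx (cc c) i s))
                  (qv tab (vtx (cc c) i r)) := by
            intro g hg
            obtain ⟨g1, g2⟩ := band hg
            refine ⟨beq' g1, fun r hr hr1 => ?_⟩
            exact beq' (rec_true_left ((all7_iff _).mp g2 r hr) (Nat.ble_eq.mpr hr1))
          have h7 : chkN1 tab (cc c) i t s (gx (vtx (cc c) i t)) = true ∨
              chkN1 tab (cc c) i t s (gy (vtx (cc c) i t)) = true := by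
            have : (chkN1 tab (cc c) i t s (gx (vtx (cc c) i t)) ||
              chkN1 tab (cc c) i t s (gy (vtx (cc c) i t))) = true := h6
            exact Bool.or_eq_true_iff.mp this
          rcases h7 with h8 | h8
          · exact ⟨_, Or.inl rfl, n1 _ h8⟩
          · exact ⟨_, Or.inr rfl, n1 _ h8⟩

/-- the properties of a face used below -/
structure Face (s : Finset (Fin 124)) : Prop where
  inj : ∀ x ∈ s, ∀ y ∈ s, qv tab x = qv tab y → x = y
  n0 : ∀ x ∈ s, ty x = 0 → ∀ y ∈ s, act tab (gx x) y = ft (qv tab x) (qv tab y)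
  n1 : ∀ x ∈ s, ty x = 1 → ∀ y ∈ s, 1 ≤ ty y →
    (act tab (gx x) y = act tab (gy x) y ∧ act tab (gx x) y = ft (qv tab x) (qv tab y)) ∨
    (act tab (gx x) y ≠ act tab (gy x) y ∧ ∃ g, (g = gx x ∨ g = gy x) ∧
      act tab g y = ft (qv tab x) (qv tab y) ∧
      ∀ r ∈ s, 1 ≤ ty r → act tab g r = f3 (qv tab x) (qv tab y) (qv tab r))

theorem face (s : Finset (Fin 124)) (hs : s ∈ CX TT) : Face s := by
  obtain ⟨o, σ, hσ, hs⟩ := hs
  obtain ⟨i, hi, rfl⟩ := (mem_TT o σ).mp hσ
  have hc := cnum_lt o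
  generalize cnum o = c at hc hi hs
  have hv : ∀ x ∈ s, ∃ t < 7, vtx (cc c) i t = x := by
    intro x hx
    exact (fac_bits c hc i hi x).mp ((mem_fset _ x).mp (hs hx))
  refine ⟨?_, ?_, ?_⟩
  · intro x hx y hy hxy
    obtain ⟨t, ht, e1⟩ := hv x hx
    obtain ⟨u, hu, e2⟩ := hv y hy
    rw [← e1, ← e2] at hxy
    have := (facet_Q c hc i hi).1 t ht u hu hxy
    apply Fin.ext
    rw [← e1, ← e2, this]
  · intro x hx h0 y hy
    obtain ⟨t, ht, e1⟩ := hv x hx
    obtain ⟨u, hu, e2⟩ := hv y hy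
    rw [← e1] at h0
    have := (facet_G c hc i hi t ht).1 h0 u hu
    rw [e1, e2] at this
    exact this
  · intro x hx h0 y hy hy1
    obtain ⟨t, ht, e1⟩ := hv x hx
    obtain ⟨u, hu, e2⟩ := hv y hy
    rw [← e1] at h0
    have := (facet_G c hc i hi t ht).2 h0 u hu (by rw [e2]; exact hy1)
    rw [e1, e2] at this
    rcases this with h | ⟨h, g, hg, h1, h2⟩
    · exact Or.inl h
    · right
      refine ⟨h, g, hg, h1, fun r hr hr1 => ?_⟩
      obtain ⟨w, hw, e3⟩ := hv r hr
      have := h2 w hw (by rw [e3]; exact hr1)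
      rw [e3] at this
      exact this

theorem exists_pnum : ∀ k < 6, ∃ p : Equiv.Perm (Fin 3), pnum p = k := by decide +kernel

/-- two group elements which map `s` and `t` to the same set -/
theorem fin (s t : Finset (Fin 124)) (g g' : ℕ) (hg : g < 6) (hg' : g' < 6)
    (h : ∀ y ∈ s, ∃ y' ∈ t, act tab g y = act tab g' y')
    (h' : ∀ y' ∈ t, ∃ y ∈ s, act tab g y = act tab g' y') : ∃ p, t = s.image (rho p) := by
  obtain ⟨p, hp⟩ := exists_pnum g hg
  obtain ⟨p', hp'⟩ := exists_pnum g' hg'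
  have key : ∀ y y' : Fin 124, act tab g y = act tab g' y' → rho (p * p'⁻¹) y = y' := by
    intro y y' hy
    rw [← rho_comp]
    have h1 : rho p y = rho p' y' := by
      apply Fin.ext
      rw [rho_val, rho_val, hp, hp']
      exact hy
    rw [h1, rho_comp, mul_inv_cancel, rho_one]
  refine ⟨p * p'⁻¹, ?_⟩
  apply Finset.Subset.antisymm
  · intro y' hy'
    obtain ⟨y, hy, e⟩ := h' y' hy'
    exact Finset.mem_image.mpr ⟨y, hy, key y y' e⟩
  · intro w hw
    obtain ⟨y, hy, rfl⟩ := Finset.mem_image.mp hw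
    obtain ⟨y', hy', e⟩ := h y hy
    rw [key y y' e]
    exact hy'

/-- an unsymmetric vertex of `s` corresponds to an unsymmetric vertex of `t` -/
theorem unsym (s t : Finset (Fin 124)) (hs : Face s) (ht : Face t) (x x' y y' : Fin 124)
    (hx : x ∈ s) (hx' : x' ∈ t) (hy : y ∈ s) (hy' : y' ∈ t) (h1 : ty x = 1)
    (hxx : qv tab x = qv tab x') (hyy : qv tab y = qv tab y') (hy1 : 1 ≤ ty y)
    (hne : act tab (gx x) y ≠ act tab (gy x) y) : act tab (gx x') y' ≠ act tab (gy x') y' := by
  intro heq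
  have h1' : ty x' = 1 := by rw [← ((tab_q x x.2).2.2.2 x' x'.2 hxx).1]; exact h1
  have hy1' : 1 ≤ ty y' := by rw [← ((tab_q y y.2).2.2.2 y' y'.2 hyy).1]; exact hy1
  have hf : act tab (gx x') y' = ft (qv tab x') (qv tab y') := by
    rcases ht.n1 x' hx' h1' y' hy' hy1' with h | h
    · exact h.2
    · exact absurd heq h.1
  rw [← hxx, ← hyy] at hf
  -- the value is fixed by the swap
  have hw := (w_rel x' x'.2 h1' y' y'.2).1
  rw [← heq, hf, ← hxx] at hw
  rcases hs.n1 x hx h1 y hy hy1 with h | ⟨-, g, hg, h2, -⟩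
  · exact hne h.1
  · obtain ⟨r1, r2⟩ := w_rel x x.2 h1 y y.2
    rcases hg with rfl | rfl
    · apply hne
      rw [← r1, h2, hw]
    · apply hne
      rw [← r2, h2, hw]

end G22

theorem qq_inj (s : Finset (Fin 124)) (hs : s ∈ CX TT) : Set.InjOn qq (s : Set (Fin 124)) := by
  intro x hx y hy hxy
  exact (G22.face s hs).inj x hx y hy ((G22.qq_eq x y).mp hxy)

theorem qq_good (s : Finset (Fin 124)) (hs : s ∈ CX TT) (t : Finset (Fin 124)) (ht : t ∈ CX TT)
    (h : s.image qq = t.image qq) : ∃ g, t = s.image (rho g) := by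
  have fs := G22.face s hs
  have fT := G22.face t ht
  have corr : ∀ y ∈ s, ∃ y' ∈ t, qv tab y = qv tab y' := by
    intro y hy
    have : qq y ∈ t.image qq := by rw [← h]; exact Finset.mem_image_of_mem _ hy
    obtain ⟨y', hy', e⟩ := Finset.mem_image.mp this
    exact ⟨y', hy', (G22.qq_eq y y').mp e.symm⟩
  have corr' : ∀ y' ∈ t, ∃ y ∈ s, qv tab y = qv tab y' := by
    intro y' hy'
    have : qq y' ∈ s.image qq := by rw [h]; exact Finset.mem_image_of_mem _ hy'
    obtain ⟨y, hy, e⟩ := Finset.mem_image.mp this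
    exact ⟨y, hy, (G22.qq_eq y y').mp e⟩
  have tyeq : ∀ y y' : Fin 124, qv tab y = qv tab y' → G22.ty y = G22.ty y' :=
    fun y y' e => ((G22.tab_q y y.2).2.2.2 y' y'.2 e).1
  by_cases h0 : ∃ x ∈ s, G22.ty x = 0
  · obtain ⟨x, hx, hx0⟩ := h0
    obtain ⟨x', hx', exx⟩ := corr x hx
    have hx0' : G22.ty x' = 0 := by rw [← tyeq x x' exx]; exact hx0
    have key : ∀ y ∈ s, ∀ y' ∈ t, qv tab y = qv tab y' →
        act tab (G22.gx x) y = act tab (G22.gx x') y' := by
      intro y hy y' hy' e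
      rw [fs.n0 x hx hx0 y hy, fT.n0 x' hx' hx0' y' hy', exx, e]
    refine G22.fin s t _ _ (G22.gx_lt x x.2) (G22.gx_lt x' x'.2) ?_ ?_
    · intro y hy
      obtain ⟨y', hy', e⟩ := corr y hy
      exact ⟨y', hy', key y hy y' hy' e⟩
    · intro y' hy'
      obtain ⟨y, hy, e⟩ := corr' y' hy'
      exact ⟨y, hy, key y hy y' hy' e⟩
  · have h1s : ∀ y ∈ s, 1 ≤ G22.ty y := by
      intro y hy
      by_contra hc
      exact h0 ⟨y, hy, by omega⟩
    have h1t : ∀ y' ∈ t, 1 ≤ G22.ty y' := by
      intro y' hy'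
      obtain ⟨y, hy, e⟩ := corr' y' hy'
      rw [← tyeq y y' e]
      exact h1s y hy
    by_cases h1 : ∃ x ∈ s, G22.ty x = 1
    · obtain ⟨x, hx, hx1⟩ := h1
      obtain ⟨x', hx', exx⟩ := corr x hx
      have hx1' : G22.ty x' = 1 := by rw [← tyeq x x' exx]; exact hx1
      by_cases hu : ∃ y ∈ s, act tab (G22.gx x) y ≠ act tab (G22.gy x) y
      · obtain ⟨y, hy, hyu⟩ := hu
        obtain ⟨y', hy', eyy⟩ := corr y hy
        have hyu' := G22.unsym s t fs fT x x' y y' hx hx' hy hy' hx1 exx eyy (h1s y hy) hyu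
        obtain ⟨g, hg, -, hgr⟩ : ∃ g, (g = G22.gx x ∨ g = G22.gy x) ∧
            act tab g y = G22.ft (qv tab x) (qv tab y) ∧
            ∀ r ∈ s, 1 ≤ G22.ty r → act tab g r =
              G22.f3 (qv tab x) (qv tab y) (qv tab r) := by
          rcases fs.n1 x hx hx1 y hy (h1s y hy) with hh | hh
          · exact absurd hh.1 hyu
          · exact hh.2
        obtain ⟨g', hg', -, hgr'⟩ : ∃ g, (g = G22.gx x' ∨ g = G22.gy x') ∧
            act tab g y' = G22.ft (qv tab x') (qv tab y') ∧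
            ∀ r ∈ t, 1 ≤ G22.ty r → act tab g r =
              G22.f3 (qv tab x') (qv tab y') (qv tab r) := by
          rcases fT.n1 x' hx' hx1' y' hy' (h1t y' hy') with hh | hh
          · exact absurd hh.1 hyu'
          · exact hh.2
        have hg6 : g < 6 := by
          rcases hg with rfl | rfl
          · exact G22.gx_lt x x.2
          · exact G22.gy_lt x x.2
        have hg6' : g' < 6 := by
          rcases hg' with rfl | rfl
          · exact G22.gx_lt x' x'.2
          · exact G22.gy_lt x' x'.2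
        have key : ∀ r ∈ s, ∀ r' ∈ t, qv tab r = qv tab r' → act tab g r = act tab g' r' := by
          intro r hr r' hr' e
          rw [hgr r hr (h1s r hr), hgr' r' hr' (h1t r' hr'), exx, eyy, e]
        refine G22.fin s t g g' hg6 hg6' ?_ ?_
        · intro r hr
          obtain ⟨r', hr', e⟩ := corr r hr
          exact ⟨r', hr', key r hr r' hr' e⟩
        · intro r' hr'
          obtain ⟨r, hr, e⟩ := corr' r' hr'
          exact ⟨r, hr, key r hr r' hr' e⟩
      · push Not at hu
        have hu' : ∀ y' ∈ t, act tab (G22.gx x') y' = act tab (G22.gy x') y' := by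
          intro y' hy'
          by_contra hc
          obtain ⟨y, hy, e⟩ := corr' y' hy'
          exact G22.unsym t s fT fs x' x y' y hx' hx hy' hy hx1' exx.symm e.symm (h1t y' hy') hc
            (hu y hy)
        have key : ∀ y ∈ s, ∀ y' ∈ t, qv tab y = qv tab y' →
            act tab (G22.gx x) y = act tab (G22.gx x') y' := by
          intro y hy y' hy' e
          have e1 : act tab (G22.gx x) y = G22.ft (qv tab x) (qv tab y) := by
            rcases fs.n1 x hx hx1 y hy (h1s y hy) with hh | hh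
            · exact hh.2
            · exact absurd (hu y hy) hh.1
          have e2 : act tab (G22.gx x') y' = G22.ft (qv tab x') (qv tab y') := by
            rcases fT.n1 x' hx' hx1' y' hy' (h1t y' hy') with hh | hh
            · exact hh.2
            · exact absurd (hu' y' hy') hh.1
          rw [e1, e2, exx, e]
        refine G22.fin s t _ _ (G22.gx_lt x x.2) (G22.gx_lt x' x'.2) ?_ ?_
        · intro y hy
          obtain ⟨y', hy', e⟩ := corr y hy
          exact ⟨y', hy', key y hy y' hy' e⟩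
        · intro y' hy'
          obtain ⟨y, hy, e⟩ := corr' y' hy'
          exact ⟨y, hy, key y hy y' hy' e⟩
    · -- all labels are two
      have h2 : ∀ y ∈ s, G22.ty y = 2 := by
        intro y hy
        have a1 := h1s y hy
        have a2 := (G22.tab_q y y.2).2.2.1
        have a3 : G22.ty y ≠ 1 := fun e => h1 ⟨y, hy, e⟩
        omega
      have hst : t = s := by
        apply Finset.Subset.antisymm
        · intro y' hy'
          obtain ⟨y, hy, e⟩ := corr' y' hy'
          have := ((G22.tab_q y y.2).2.2.2 y' y'.2 e).2 (h2 y hy)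
          have e2 : y = y' := Fin.ext this
          rw [← e2]
          exact hy
        · intro y hy
          obtain ⟨y', hy', e⟩ := corr y hy
          have := ((G22.tab_q y y.2).2.2.2 y' y'.2 e).2 (h2 y hy)
          have e2 : y = y' := Fin.ext this
          rw [e2]
          exact hy'
      refine ⟨1, ?_⟩
      have : rho 1 = id := by funext v; exact rho_one v
      rw [this, Finset.image_id]
      exact hst

namespace G22

theorem exists_cnum : ∀ c < 64, ∃ o : Fin 3 → Fin 4, cnum o = c := by decide +kernel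

theorem tabK_lt (j : ℕ) : Nat.shiftRight (ent tabK 14 j) 8 < 64 := by
  have h : ent tabK 14 j < 2 ^ 14 := by
    show Nat.shiftRight tabK (14 * j) &&& (2 ^ 14 - 1) < 2 ^ 14
    rw [Nat.and_two_pow_sub_one_eq_mod]
    exact Nat.mod_lt _ (by norm_num)
  show ent tabK 14 j >>> 8 < 64
  rw [Nat.shiftRight_eq_div_pow]
  omega

end G22

theorem qq_image (u : Finset (Fin 30)) : u ∈ gen 30 L1 ↔ ∃ s ∈ CX TT, u = s.image qq := by
  constructor
  · rintro ⟨m, hm, hu⟩
    unfold L1 at hm
    obtain ⟨j, hj, rfl⟩ := List.mem_map.mp hm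
    rw [List.mem_range] at hj
    obtain ⟨h1, h2⟩ := band ((allN_iff 1804 _).mp chkL_ok j hj)
    have hc := G22.tabK_lt j
    have hi : Nat.land (ent tabK 14 j) 255 < (cc (Nat.shiftRight (ent tabK 14 j) 8)).n := blt' h1
    have hQ : ent (cc (Nat.shiftRight (ent tabK 14 j) 8)).QI 11 (Nat.land (ent tabK 14 j) 255) = j :=
      beq' h2
    generalize Nat.shiftRight (ent tabK 14 j) 8 = c at hc hi hQ
    generalize Nat.land (ent tabK 14 j) 255 = i at hi hQ
    obtain ⟨o, rfl⟩ := G22.exists_cnum c hc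
    have hb := (G22.facet_Q (cnum o) hc i hi).2.2
    rw [hQ] at hb
    refine ⟨(fset (fac (cc (cnum o)) i)).filter fun v => qq v ∈ u,
      ⟨o, _, (mem_TT o _).mpr ⟨i, hi, rfl⟩, Finset.filter_subset _ _⟩, ?_⟩
    apply Finset.Subset.antisymm
    · intro b hbu
      obtain ⟨t, ht, e⟩ := (hb b).mp (hu b hbu)
      have hlt := vtx_lt (cnum o) hc i hi t ht
      refine Finset.mem_image.mpr ⟨⟨vtx (cc (cnum o)) i t, hlt⟩, ?_, ?_⟩
      · rw [Finset.mem_filter, mem_fset]
        refine ⟨(fac_bits (cnum o) hc i hi _).mpr ⟨t, ht, rfl⟩, ?_⟩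
        have : qq ⟨vtx (cc (cnum o)) i t, hlt⟩ = b := by
          apply Fin.ext
          rw [G22.qq_val]
          exact e
        rw [this]
        exact hbu
      · apply Fin.ext
        rw [G22.qq_val]
        exact e
    · intro b hb'
      obtain ⟨v, hv, rfl⟩ := Finset.mem_image.mp hb'
      exact (Finset.mem_filter.mp hv).2
  · rintro ⟨s, ⟨o, σ, hσ, hs⟩, rfl⟩
    obtain ⟨i, hi, rfl⟩ := (mem_TT o σ).mp hσ
    obtain ⟨-, hlt, hb⟩ := G22.facet_Q (cnum o) (cnum_lt o) i hi
    refine ⟨ent tab.LF 30 (ent (cc (cnum o)).QI 11 i), ?_, ?_⟩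
    · unfold L1
      exact List.mem_map.mpr ⟨_, List.mem_range.mpr hlt, rfl⟩
    · intro b hb'
      obtain ⟨v, hv, rfl⟩ := Finset.mem_image.mp hb'
      obtain ⟨t, ht, e⟩ := (fac_bits (cnum o) (cnum_lt o) i hi v).mp ((mem_fset _ v).mp (hs hv))
      refine (hb _).mpr ⟨t, ht, ?_⟩
      rw [e, G22.qq_val]

end Pool.Agent.helper73.TC
end
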